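import Pool.Agent.W711.HT.Stm

/-! HT project (helper711), part HT-LOG (helper930): from the modulus to the complex logarithm. -/

set_option autoImplicit false

open Filter Topology Metric Set

namespace Pool.Agent.W930.HTLog

open Pool.Agent.W711.HT

theorem log_diff {U : Set ℂ} (hU : IsOpen U) {f L : ℂ → ℂ} (hf : DifferentiableOn ℂ f U)
    (hL : ContinuousOn L U) (h : ∀ z ∈ U, Complex.exp (L z) = f z) : DifferentiableOn ℂ L U := by
  intro z1 hz1
  have hn : U ∈ 𝓝 z1 := hU.mem_nhds hz1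
  have hf1 : f z1 ≠ 0 := by rw [← h z1 hz1]; exact Complex.exp_ne_zero _
  have hLc : ContinuousAt L z1 := hL.continuousAt hn
  have hd : DifferentiableAt ℂ (fun z => Complex.log (f z / f z1) + L z1) z1 := by
    refine (DifferentiableAt.clog ((hf.differentiableAt hn).div_const _) ?_).add_const _
    rw [div_self hf1]
    exact Complex.one_mem_slitPlane
  have hev : ∀ᶠ z in 𝓝 z1, ‖L z - L z1‖ < Real.pi := by
    have h1 : ContinuousAt (fun z => ‖L z - L z1‖) z1 := (hLc.sub continuousAt_const).norm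
    refine h1.eventually (gt_mem_nhds ?_)
    simp [Real.pi_pos]
  refine (hd.congr_of_eventuallyEq ?_).differentiableWithinAt
  filter_upwards [hev, hn] with z hz hzU
  have h2 : f z / f z1 = Complex.exp (L z - L z1) := by
    rw [Complex.exp_sub, h z hzU, h z1 hz1]
  have h3 := (Complex.abs_im_le_norm (L z - L z1)).trans_lt hz
  rw [h2, Complex.log_exp (abs_lt.1 h3).1 (abs_lt.1 h3).2.le]
  ring

theorem exists_log {U : Set ℂ} (hU : IsOpen U) (hc : Convex ℝ U) (hne : U.Nonempty) {f : ℂ → ℂ}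
    (hf : DifferentiableOn ℂ f U) (h0 : ∀ z ∈ U, f z ≠ 0) :
    ∃ L : ℂ → ℂ, DifferentiableOn ℂ L U ∧ ∀ z ∈ U, Complex.exp (L z) = f z := by
  have h1 : IsSimplyConnected U := by
    have := hc.contractibleSpace hne
    show SimplyConnectedSpace U
    infer_instance
  obtain ⟨L, hL, hLe⟩ := Complex.exists_continuousOn_eqOn_exp_comp h1 hU hf.continuousOn (by
    rintro ⟨z, hz, hz0⟩
    exact h0 z hz hz0)
  exact ⟨L, log_diff hU hf hL hLe, hLe⟩

/-- small real part implies small derivative -/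
theorem deriv_bd {H : ℂ → ℂ} {w : ℂ} {δ ε : ℝ} (hδ : 0 < δ) (hε : 0 < ε)
    (hH : DifferentiableOn ℂ H (ball w δ)) (hr : ∀ z ∈ ball w δ, |(H z).re| ≤ ε) :
    ‖deriv H w‖ ≤ 8 * ε / δ := by
  have hmap : ∀ z ∈ ball (0 : ℂ) δ, w + z ∈ ball w δ := by
    intro z hz
    rw [mem_ball, dist_eq_norm, add_sub_cancel_left]
    simpa using hz
  have hw : w ∈ ball w δ := mem_ball_self hδ
  have h1 : ∀ z ∈ ball (0 : ℂ) δ, ‖H (w + z) - H w‖ ≤ 2 * (2 * ε) * ‖z‖ / (δ - ‖z‖) := by
    intro z hz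
    refine Complex.borelCaratheodory_zero (f := fun z => H (w + z) - H w) (by positivity)
      ?_ ?_ hδ hz (by simp)
    · refine DifferentiableOn.sub_const ?_ _
      exact hH.comp (by fun_prop) hmap
    · intro x hx
      have h2 := abs_le.1 (hr _ (hmap x hx))
      have h3 := abs_le.1 (hr w hw)
      show (H (w + x) - H w).re ≤ 2 * ε
      rw [Complex.sub_re]
      linarith [h2.2, h3.1]
  have hδ2 : 0 < δ / 2 := by positivity
  have hd : DiffContOnCl ℂ (fun z => H z - H w) (ball w (δ / 2)) := by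
    apply DifferentiableOn.diffContOnCl
    rw [closure_ball w hδ2.ne']
    refine (hH.mono ?_).sub_const _
    exact closedBall_subset_ball (by linarith)
  have h2 := Complex.norm_deriv_le_of_forall_mem_sphere_norm_le (C := 4 * ε) hδ2 hd (by
    intro z hz
    rw [mem_sphere, dist_eq_norm] at hz
    have h3 := h1 (z - w) (by rw [mem_ball_zero_iff, hz]; linarith)
    rw [add_sub_cancel, hz] at h3
    refine h3.trans (le_of_eq ?_)
    have : δ - δ / 2 = δ / 2 := by ring
    rw [this]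
    field_simp
    ring)
  rw [deriv_sub_const_fun] at h2
  refine h2.trans (le_of_eq ?_)
  field_simp
  ring

theorem main : S_LOG := by
  intro f G U K hU hUc hf hG hMW hK hKU
  rcases U.eq_empty_or_nonempty with he | ⟨z0, hz0⟩
  · subst he
    have hK0 : K = ∅ := subset_empty_iff.1 hKU
    refine ⟨fun _ _ => 0, fun _ => 1, fun _ => norm_one, Eventually.of_forall fun N =>
      ⟨differentiableOn_empty, fun z hz => absurd hz (notMem_empty z)⟩, ?_⟩
    rw [hK0]
    exact tendstoUniformlyOn_empty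
  -- the good indices
  have hgood : ∀ᶠ N : ℕ in atTop, DifferentiableOn ℂ (f N) U ∧ (∀ z ∈ U, f N z ≠ 0) ∧ 1 ≤ N := by
    filter_upwards [hf, hMW 1 one_pos, eventually_ge_atTop 1] with N h1 h2 h3
    exact ⟨h1, fun z hz => (h2 z hz).1, h3⟩
  have hL : ∀ N : ℕ, ∃ L : ℂ → ℂ, (DifferentiableOn ℂ (f N) U ∧ (∀ z ∈ U, f N z ≠ 0)) →
      DifferentiableOn ℂ L U ∧ ∀ z ∈ U, Complex.exp (L z) = f N z := by
    intro N
    by_cases h : DifferentiableOn ℂ (f N) U ∧ (∀ z ∈ U, f N z ≠ 0)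
    · obtain ⟨L, h1⟩ := exists_log hU hUc ⟨z0, hz0⟩ h.1 h.2
      exact ⟨L, fun _ => h1⟩
    · exact ⟨0, fun h' => absurd h' h⟩
  choose L hL using hL
  set θ : ℕ → ℝ := fun N => (L N z0).im - N * (G z0).im with hθ
  set g : ℕ → ℂ → ℂ := fun N z => (L N z - Complex.I * θ N) / N with hg
  have hprop : ∀ᶠ N : ℕ in atTop, DifferentiableOn ℂ (g N) U ∧
      (∀ z ∈ U, f N z = Complex.exp (Complex.I * θ N) * Complex.exp (N * g N z)) ∧
      (g N z0).im = (G z0).im ∧
      ∀ z ∈ U, N * (g N z).re = Real.log ‖f N z‖ := by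
    filter_upwards [hgood] with N hN
    obtain ⟨hL1, hL2⟩ := hL N ⟨hN.1, hN.2.1⟩
    have hN0 : (N : ℂ) ≠ 0 := by
      have := hN.2.2
      exact_mod_cast (by omega : N ≠ 0)
    have hN0' : (N : ℝ) ≠ 0 := by
      have := hN.2.2
      exact_mod_cast (by omega : N ≠ 0)
    refine ⟨?_, ?_, ?_, ?_⟩
    · exact (hL1.sub_const _).div_const _
    · intro z hz
      rw [← hL2 z hz, ← Complex.exp_add]
      congr 1
      rw [hg]
      simp only
      field_simp
      ring
    · rw [hg]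
      simp only
      rw [Complex.div_natCast_im, Complex.sub_im]
      have : (Complex.I * (θ N : ℂ)).im = θ N := by simp
      rw [this, hθ]
      simp only
      field_simp
      ring
    · intro z hz
      rw [hg]
      simp only
      rw [Complex.div_natCast_re, Complex.sub_re]
      have : (Complex.I * (θ N : ℂ)).re = 0 := by simp
      rw [this, sub_zero, mul_div_cancel₀ _ hN0', ← hL2 z hz, Complex.norm_exp, Real.log_exp]
  refine ⟨g, fun N => Complex.exp (Complex.I * θ N), fun N => ?_, ?_, ?_⟩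
  · show ‖Complex.exp (Complex.I * (θ N : ℂ))‖ = 1
    rw [mul_comm]; exact Complex.norm_exp_ofReal_mul_I _
  · filter_upwards [hprop] with N hN
    exact ⟨hN.1, hN.2.1⟩
  -- uniform convergence
  set K' : Set ℂ := (fun q : ℝ × ℂ => z0 + q.1 • (q.2 - z0)) '' (Icc 0 1 ×ˢ K) with hK'
  have hK'c : IsCompact K' := (isCompact_Icc.prod hK).image (by fun_prop)
  have hseg : ∀ z ∈ K, segment ℝ z0 z ⊆ K' := by
    intro z hz
    rw [segment_eq_image']
    rintro _ ⟨t, ht, rfl⟩
    exact ⟨(t, z), ⟨ht, hz⟩, rfl⟩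
  have hK'U : K' ⊆ U := by
    rintro _ ⟨⟨t, z⟩, ⟨ht, hz⟩, rfl⟩
    have h1 := hUc.segment_subset hz0 (hKU hz)
    rw [segment_eq_image'] at h1
    exact h1 ⟨t, ht, rfl⟩
  obtain ⟨δ, hδ, hδU⟩ := hK'c.exists_thickening_subset_open hU hK'U
  have hball : ∀ w ∈ K', ball w δ ⊆ U := fun w hw =>
    (ball_subset_thickening hw δ).trans hδU
  obtain ⟨D, hD⟩ : ∃ D : ℝ, ∀ z ∈ K, ‖z - z0‖ ≤ D := by
    obtain ⟨D, hD⟩ := (hK.image (continuous_id.sub continuous_const : Continuous fun z => z - z0))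
      |>.isBounded.exists_norm_le
    exact ⟨D, fun z hz => hD _ ⟨z, hz, rfl⟩⟩
  set D' : ℝ := |D| + 1 with hD'
  have hD'0 : 0 < D' := by positivity
  rw [Metric.tendstoUniformlyOn_iff]
  intro ε hε
  set ε1 : ℝ := ε / (2 * (1 + 8 * D' / δ)) with hε1
  have hε10 : 0 < ε1 := by positivity
  filter_upwards [hprop, hMW ε1 hε10, eventually_ge_atTop 1] with N hN hN2 hN1 z hz
  have hN0 : (0 : ℝ) < N := by exact_mod_cast hN1
  obtain ⟨hg1, _, hg3, hg4⟩ := hN
  set H : ℂ → ℂ := fun z => g N z - G z with hH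
  have hHd : DifferentiableOn ℂ H U := hg1.sub hG
  have hHr : ∀ z ∈ U, |(H z).re| ≤ ε1 := by
    intro z hz
    have h1 := (hN2 z hz).2
    rw [← hg4 z hz, ← mul_sub, abs_mul, abs_of_pos hN0, mul_comm ε1] at h1
    rw [hH]
    simp only [Complex.sub_re]
    exact le_of_mul_le_mul_left h1 hN0
  have hder : ∀ w ∈ K', ‖deriv H w‖ ≤ 8 * ε1 / δ := fun w hw =>
    deriv_bd hδ hε10 (hHd.mono (hball w hw)) fun z hz => hHr z (hball w hw hz)
  have hmv := Convex.norm_image_sub_le_of_norm_deriv_le (f := H) (s := segment ℝ z0 z)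
    (fun w hw => hHd.differentiableAt (hU.mem_nhds (hK'U (hseg z hz hw))))
    (fun w hw => hder w (hseg z hz hw)) (convex_segment z0 z) (left_mem_segment ℝ z0 z)
    (right_mem_segment ℝ z0 z)
  have hH0 : ‖H z0‖ ≤ ε1 := by
    have h1 : H z0 = ((H z0).re : ℂ) := by
      apply Complex.ext
      · simp
      · rw [hH]
        simp only [Complex.sub_im, Complex.ofReal_im]
        rw [hg3, sub_self]
    rw [h1, Complex.norm_real, Real.norm_eq_abs]
    exact hHr z0 hz0
  have hzz : ‖z - z0‖ ≤ D' := (hD z hz).trans (by rw [hD']; linarith [le_abs_self D])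
  have hfin : ‖H z‖ ≤ ε1 * (1 + 8 * D' / δ) := by
    have h2 : ‖H z‖ ≤ ‖H z - H z0‖ + ‖H z0‖ := by
      simpa using norm_add_le (H z - H z0) (H z0)
    have h3 : 8 * ε1 / δ * ‖z - z0‖ ≤ 8 * ε1 / δ * D' :=
      mul_le_mul_of_nonneg_left hzz (by positivity)
    calc ‖H z‖ ≤ 8 * ε1 / δ * D' + ε1 := by linarith
      _ = ε1 * (1 + 8 * D' / δ) := by ring
  rw [dist_comm, dist_eq_norm]
  have h4 : ε1 * (1 + 8 * D' / δ) = ε / 2 := by
    rw [hε1]
    field_simp
  rw [h4] at hfin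
  calc ‖g N z - G z‖ = ‖H z‖ := rfl
    _ ≤ ε / 2 := hfin
    _ < ε := by linarith

end Pool.Agent.W930.HTLog
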